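import Pool.Agent.Q81.TN.Main

/-!
# An algebra with exactly two inequivalent Banach algebra norms

`N(A)` is the number of equivalence classes of Banach algebra norms on the complex algebra `A`.
We construct (in ZFC) a unital associative complex algebra `A` with `N(A) = 2`, so the answer to Q1
of MP_357fb8_an is yes.

* `Q81TN.IsBanachAlgebraNorm p` : `p : A → ℝ` is a norm on the complex algebra `A` which is
  complete (Cauchy sequences converge) and submultiplicative.
* `Q81TN.NormEquiv p q` : there are `c > 0` and `C` with `c * p x ≤ q x ≤ C * p x` for all `x`.
* `Q81TN.normSetoid A` : the equivalence relation `NormEquiv` on the set of all Banach algebra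
  norms on `A`.
-/

namespace Pool.Agent.Results.MP_357fb8_an.ExactlyTwoNorms

open Q81TN

/-- `N(A)`: the number (a cardinal) of equivalence classes of Banach algebra norms on `A`. -/
noncomputable def N (A : Type) [Ring A] [Algebra ℂ A] : Cardinal :=
  Cardinal.mk (Quotient (normSetoid A))

/-- There is a (unital, associative) complex algebra with exactly two classes of Banach algebra
norms. -/
theorem result : ∃ (A : Type) (_ : Ring A) (_ : Algebra ℂ A), N A = 2 := by
  obtain ⟨A, i1, i2, h⟩ := exists_two_norms
  refine ⟨A, i1, i2, ?_⟩
  rw [N, Cardinal.mk_eq_two_iff]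
  exact Nat.card_eq_two_iff.mp h

end Pool.Agent.Results.MP_357fb8_an.ExactlyTwoNorms
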